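import Pool.Agent.H65.CI.STT
import Pool.Agent.H17.AH.TargetsA
import Pool.Agent.H30.VM.TargetsB
import Pool.Agent.H30.VM.TargetsC

/-!
# MP_70ba79_ag, module STBT of the board `ahy_modules` (the steps in the border case)
-/

set_option autoImplicit false

namespace Pool.Agent.H77.AH

open MvPolynomial SC Pool.Agent.H27.LV Pool.Agent.H17.VG Pool.Agent.H30.VM
open Pool.Agent.H17.CI (Tup IlT PQT TxT frmT upT RatT)

section restrict

variable {K V E N : Type} [Field K] [AddCommGroup V] [Module K V] [AddCommGroup E] [Module K E]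
  [AddCommGroup N] [Module K N]

/-- the map `B` with the codomain restricted to the span of its values -/
private noncomputable def resB (B : V →ₗ[K] E →ₗ[K] N) :
    V →ₗ[K] E →ₗ[K] (Submodule.span K {w | ∃ v q, w = B v q} : Submodule K N) :=
  LinearMap.mk₂ K (fun v q => ⟨B v q, Submodule.subset_span ⟨v, q, rfl⟩⟩)
    (fun a b q => Subtype.ext (by simp)) (fun c a q => Subtype.ext (by simp))
    (fun a p q => Subtype.ext (by simp)) (fun c a q => Subtype.ext (by simp))

private theorem resB_coe (B : V →ₗ[K] E →ₗ[K] N) (v : V) (q : E) :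
    ((resB B v q : (Submodule.span K {w | ∃ v q, w = B v q} : Submodule K N)) : N) = B v q := rfl

private theorem finrank_resB (B : V →ₗ[K] E →ₗ[K] N) (P : V → E → Prop) :
    Module.finrank K (Submodule.span K {w | ∃ v q, P v q ∧ w = resB B v q}) =
      Module.finrank K (Submodule.span K {w | ∃ v q, P v q ∧ w = B v q}) := by
  have h : ((Submodule.span K {w | ∃ v q, w = B v q}).subtype ''
      {w | ∃ v q, P v q ∧ w = resB B v q}) = {w | ∃ v q, P v q ∧ w = B v q} := by
    ext w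
    constructor
    · rintro ⟨w', ⟨v, q, h, rfl⟩, rfl⟩
      exact ⟨v, q, h, rfl⟩
    · rintro ⟨v, q, h, rfl⟩
      exact ⟨resB B v q, ⟨v, q, h, rfl⟩, rfl⟩
  rw [← Submodule.finrank_map_subtype_eq (Submodule.span K {w | ∃ v q, w = B v q})
    (Submodule.span K {w | ∃ v q, P v q ∧ w = resB B v q}), Submodule.map_span, h]

private theorem span_resB (B : V →ₗ[K] E →ₗ[K] N) :
    Submodule.span K {w | ∃ v q, w = resB B v q} = ⊤ := by
  apply Submodule.map_injective_of_injective
    (Submodule.injective_subtype (Submodule.span K {w | ∃ v q, w = B v q}))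
  rw [Submodule.map_span, Submodule.map_top, Submodule.range_subtype]
  congr 1
  ext w
  constructor
  · rintro ⟨w', ⟨v, q, rfl⟩, rfl⟩
    exact ⟨v, q, rfl⟩
  · rintro ⟨v, q, rfl⟩
    exact ⟨resB B v q, ⟨v, q, rfl⟩, rfl⟩

private theorem finrank_im_resB (B : V →ₗ[K] E →ₗ[K] N) {κ : Type} (Q : κ → E) :
    Module.finrank K (im (resB B) Q) = Module.finrank K (im B Q) := by
  have h := finrank_resB B (fun _ q => ∃ i, q = Q i)
  have h1 : {w | ∃ v q, (∃ i, q = Q i) ∧ w = resB B v q} = {w | ∃ v i, w = resB B v (Q i)} := by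
    ext w
    constructor
    · rintro ⟨v, q, ⟨i, rfl⟩, rfl⟩
      exact ⟨v, i, rfl⟩
    · rintro ⟨v, i, rfl⟩
      exact ⟨v, Q i, ⟨i, rfl⟩, rfl⟩
  have h2 : {w | ∃ v q, (∃ i, q = Q i) ∧ w = B v q} = {w | ∃ v i, w = B v (Q i)} := by
    ext w
    constructor
    · rintro ⟨v, q, ⟨i, rfl⟩, rfl⟩
      exact ⟨v, i, rfl⟩
    · rintro ⟨v, i, rfl⟩
      exact ⟨v, Q i, ⟨i, rfl⟩, rfl⟩
  rw [h1, h2] at h
  exact h

end restrict

private theorem upT_frmT {k K : Type} [Field k] [Field K] [Algebra k K] {n : ℕ} {ι : Type}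
    {e : ι → ℕ} (q : (Σ i, Mon (n + 1) (e i)) → k) :
    upT K (frmT q) = frmT (fun β => algebraMap k K (q β)) := by
  funext i
  exact Pool.Agent.H90.VG.up_frm _

/-- the dictionary between velocities and values of the map `B` -/
private theorem dict {R k K : Type} [Field R] [Field k] [Field K] [CharZero K]
    [Algebra k K] [Algebra R K] {n : ℕ} {ι : Type} [Fintype ι] (i₀ : ι) {e : ι → ℕ}
    (F : Tup ι K n) (x : Fin (n + 1) → K) {N : Type} [AddCommGroup N] [Module K N]
    (B : Vx x →ₗ[K] ((Σ i, Mon (n + 1) (e i)) → K) →ₗ[K] N)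
    (hBd : ∀ P : Set (Vx x × ((Σ i, Mon (n + 1) (e i)) → K)),
      Module.finrank K (UtT R i₀ F x (Submodule.span K {G | ∃ p ∈ P, G = fun i =>
        lin p.1.1 * frmT p.2 i})) =
        Module.finrank K (Submodule.span K {w | ∃ p ∈ P, w = B p.1 p.2}) + 2)
    {κ : Type} (Q' : κ → (Σ i, Mon (n + 1) (e i)) → k) :
    Module.finrank K (UtT R i₀ F x (PQT x fun j => upT K (frmT (Q' j)))) =
      Module.finrank K (im B (fun i j => algebraMap k K (Q' i j))) + 2 := by
  have h1 := hBd {p | ∃ j, p.2 = fun β => algebraMap k K (Q' j β)}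
  have h2 : Submodule.span K {G : Tup ι K n | ∃ p ∈ {p : Vx x ×
      ((Σ i, Mon (n + 1) (e i)) → K) |
      ∃ j, p.2 = fun β => algebraMap k K (Q' j β)}, G = fun i => lin p.1.1 * frmT p.2 i} =
      PQT x fun j => upT K (frmT (Q' j)) := by
    unfold PQT
    congr 1
    ext G
    constructor
    · rintro ⟨⟨ξ, q⟩, ⟨j, hj⟩, rfl⟩
      refine ⟨ξ.1, j, ξ.2, ?_⟩
      beta_reduce
      rw [upT_frmT]
      simp only at hj
      rw [hj]
    · rintro ⟨ξ, j, h, rfl⟩
      refine ⟨⟨⟨ξ, h⟩, fun β => algebraMap k K (Q' j β)⟩, ⟨j, rfl⟩, ?_⟩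
      beta_reduce
      rw [upT_frmT]
  have h3 : Submodule.span K {w | ∃ p ∈ {p : Vx x × ((Σ i, Mon (n + 1) (e i)) → K) |
      ∃ j, p.2 = fun β => algebraMap k K (Q' j β)}, w = B p.1 p.2} =
      im B (fun i j => algebraMap k K (Q' i j)) := by
    unfold im
    congr 1
    ext w
    constructor
    · rintro ⟨⟨v, q⟩, ⟨j, hj⟩, rfl⟩
      simp only at hj
      exact ⟨v, j, by rw [hj]⟩
    · rintro ⟨v, j, rfl⟩
      exact ⟨⟨v, fun β => algebraMap k K (Q' j β)⟩, ⟨j, rfl⟩, rfl⟩
  rw [h2, h3] at h1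
  exact h1

/-- the target `T_STBT` -/
theorem pf_STBT (hBT : Pool.Agent.H30.VM.T_BT) (hCB : Pool.Agent.H17.BO.T_CB)
    (hKB : Pool.Agent.H17.BO.T_KB) (hKP : Pool.Agent.H17.VG.T_KP)
    (hBIT : Pool.Agent.H30.VM.T_BIT) (hTPT : Pool.Agent.H30.VM.T_TPT)
    (hEVT : Pool.Agent.H30.VM.T_EVT) : Pool.Agent.H17.AH.T_STBT := by
  classical
  intro R k K _ _ _ _ _ _ _ n ι _ i₀ e F D Z x δ hδ hi₀ hn hsum hS hP hE
  have hx : x ≠ 0 := Pool.Agent.H90.VG.indep_ne hP.dx
  obtain ⟨-, -, -, hfr, hle⟩ := hEVT R K n ι i₀ e F D Z x hS hP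
  obtain ⟨B, hBd⟩ := hBIT R K n ι i₀ e F D Z x hS hP
  -- the span of all values
  have hspan : Module.finrank K (Submodule.span K {w | ∃ v q, w = B v q}) = 2 * δ := by
    have h1 := hBd Set.univ
    have h2 : {G : Tup ι K n | ∃ p ∈ (Set.univ : Set (Vx x × ((Σ i, Mon (n + 1) (e i)) → K))),
        G = fun i => lin p.1.1 * frmT p.2 i} = {G | ∃ (ξ : Fin (n + 1) → K)
        (q : (Σ i, Mon (n + 1) (e i)) → K),
        ∑ i, ξ i * x i = 0 ∧ G = fun i => lin ξ * frmT q i} := by
      ext G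
      constructor
      · rintro ⟨⟨ξ, q⟩, _, rfl⟩
        exact ⟨ξ.1, q, ξ.2, rfl⟩
      · rintro ⟨ξ, q, h, rfl⟩
        exact ⟨⟨⟨ξ, h⟩, q⟩, trivial, rfl⟩
    have h3 : {w | ∃ p ∈ (Set.univ : Set (Vx x × ((Σ i, Mon (n + 1) (e i)) → K))),
        w = B p.1 p.2} = {w | ∃ v q, w = B v q} := by
      ext w
      constructor
      · rintro ⟨⟨v, q⟩, _, rfl⟩
        exact ⟨v, q, rfl⟩
      · rintro ⟨v, q, rfl⟩
        exact ⟨⟨v, q⟩, trivial, rfl⟩
    rw [h2, h3, hTPT R K n ι i₀ e F D Z x hi₀ hS hP] at h1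
    omega
  -- families of products vanish at `x`
  have hvan : ∀ G : Tup ι K n, ∀ i, (∃ (κ : Type) (Q : κ → Tup ι K n), G ∈ PQT x Q) →
      eval x (G i) = 0 := by
    rintro G i ⟨κ, Q, hG⟩
    unfold PQT at hG
    induction hG using Submodule.span_induction with
    | mem G' hG' =>
      obtain ⟨ξ, j, h, rfl⟩ := hG'
      have h6 : eval x (lin ξ) = ∑ i, ξ i * x i := by
        simp [lin]
      show eval x (lin ξ * Q j i) = 0
      rw [map_mul, h6, h, zero_mul]
    | zero => show eval x (0 : MvPolynomial (Fin (n + 1)) K) = 0; simp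
    | add a b _ _ ha hb =>
      show eval x (a i + b i) = 0
      rw [map_add, ha, hb, add_zero]
    | smul c a _ ha =>
      show eval x (c • a i) = 0
      rw [smul_eval, ha, mul_zero]
  -- hyperplanes
  have hhyp : ∀ φ : Vx x →ₗ[K] K, φ ≠ 0 →
      2 * δ ≤ Module.finrank K (Submodule.span K {w | ∃ v q, φ v = 0 ∧ w = B v q}) + δ := by
    intro φ hφ
    obtain ⟨ψ, hψ⟩ := LinearMap.exists_extend φ
    set y : Fin (n + 1) → K := fun i => ψ (Pi.single i 1) with hy
    have hψy : ∀ ξ, ψ ξ = ∑ i, ξ i * y i := by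
      intro ξ
      conv_lhs => rw [pi_eq_sum_univ' ξ]
      rw [map_sum]
      refine Finset.sum_congr rfl fun i _ => ?_
      rw [map_smul, smul_eq_mul]
    have hφy : ∀ v : Vx x, φ v = ∑ i, v.1 i * y i := by
      intro v
      rw [← hψ, LinearMap.comp_apply, hψy]
      rfl
    have hxy : Indep x y := by
      unfold Indep
      rw [LinearIndependent.pair_iff' hx]
      intro a ha
      apply hφ
      ext v
      rw [hφy, LinearMap.zero_apply, ← ha]
      have h0 : ∑ i, v.1 i * x i = 0 := v.2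
      calc ∑ i, v.1 i * (a • x) i = a * ∑ i, v.1 i * x i := by
            rw [Finset.mul_sum]
            refine Finset.sum_congr rfl fun i _ => ?_
            rw [Pi.smul_apply, smul_eq_mul]; ring
        _ = 0 := by rw [h0, mul_zero]
    have h1 := hBd {p | φ p.1 = 0}
    have h3 : {w | ∃ p ∈ {p : Vx x × ((Σ i, Mon (n + 1) (e i)) → K) | φ p.1 = 0},
        w = B p.1 p.2} = {w | ∃ v q, φ v = 0 ∧ w = B v q} := by
      ext w
      constructor
      · rintro ⟨⟨v, q⟩, h, rfl⟩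
        exact ⟨v, q, h, rfl⟩
      · rintro ⟨v, q, h, rfl⟩
        exact ⟨⟨v, q⟩, h, rfl⟩
    rw [Pool.Agent.H65.CI.ilT_eq e x y φ hφy, h3] at h1
    have h4 : UtT R i₀ F x (IlT e x y) ≤ TxT Z F x := by
      refine hle _ ?_
      intro G hG i _
      unfold IlT at hG
      rw [Submodule.mem_pi] at hG
      have h5 : Il (e i) x y ≤ LinearMap.ker (aeval (R := K) x).toLinearMap := by
        unfold Il
        rw [Submodule.span_le]
        rintro G' ⟨ξ, Q, h, h', hQ, rfl⟩
        rw [SetLike.mem_coe, LinearMap.mem_ker]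
        show aeval x (lin ξ * Q) = 0
        rw [map_mul]
        have h6 : aeval x (lin ξ) = ∑ i, ξ i * x i := by
          simp [lin]
        rw [h6, h, zero_mul]
      have h7 := h5 (hG i (Set.mem_univ i))
      rw [LinearMap.mem_ker] at h7
      have h8 : aeval x (G i) = eval x (G i) := by
        rw [MvPolynomial.aeval_eq_eval]
      rw [← h8]
      exact h7
    have h5 := Submodule.finrank_mono h4
    obtain ⟨m, hm⟩ := Nat.exists_eq_add_of_le h5
    have hm2 : Module.finrank K (UtT R i₀ F x (IlT e x y)) + m + Z.card = n + 1 := by omega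
    by_cases hm3 : n + 1 ≤ 2 * m + Z.card
    · have := hBT R K n ι i₀ e F D Z x y hi₀ hS hP hxy (hE y hxy) m hm2 hm3
      omega
    · omega
  -- the map with the restricted codomain
  have hN2 : Module.finrank K (Submodule.span K {w | ∃ v q, w = B v q} :
      Submodule K ((Fin (n + 1) → K) ⧸ Submodule.span K {x, fun i => D (x i)})) = 2 * δ := hspan
  have hhyp' : ∀ φ : Vx x →ₗ[K] K, φ ≠ 0 →
      Module.finrank K (Submodule.span K {w | ∃ v q, w = B v q} :
      Submodule K ((Fin (n + 1) → K) ⧸ Submodule.span K {x, fun i => D (x i)})) ≤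
      Module.finrank K (Submodule.span K {w | ∃ v q, φ v = 0 ∧ w = resB B v q}) + δ := by
    intro φ hφ
    rw [hN2, finrank_resB B (fun v _ => φ v = 0)]
    exact hhyp φ hφ
  have first : ∀ Q : Fin (δ - 1) → ((Σ i, Mon (n + 1) (e i)) → K),
      2 * δ ≤ Module.finrank K (im (resB B) Q) + 1 →
      ∃ Q : Fin (δ - 1) → (Σ i, Mon (n + 1) (e i)) → k,
      n ≤ Module.finrank K (UtT R i₀ F x (PQT x fun j => upT K (frmT (Q j)))) + Z.card := by
    intro Q hQ
    obtain ⟨Q', hQ'⟩ := hKP k K (Vx x) _ (Fin (δ - 1)) (Σ i, Mon (n + 1) (e i)) (resB B) Q _ le_rfl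
    refine ⟨Q', ?_⟩
    rw [dict i₀ F x B hBd Q', ← finrank_im_resB B]
    omega
  by_cases hex : ∃ Q : Fin (δ - 1) → ((Σ i, Mon (n + 1) (e i)) → K),
      2 * δ ≤ Module.finrank K (im (resB B) Q) + 1
  · obtain ⟨Q, hQ⟩ := hex
    exact Or.inl (first Q hQ)
  rcases hCB K (Vx x) ((Σ i, Mon (n + 1) (e i)) → K) _ (resB B) δ hδ hN2 (span_resB B) hhyp'
    with h | ⟨Q, q, h1, h2⟩
  · exact absurd h hex
  push Not at hex
  obtain ⟨Q', q', h3, h4⟩ := hKB k K (Vx x) _ (Σ i, Mon (n + 1) (e i)) (resB B) (δ - 1)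
    (2 * δ - 2) (fun Q => by have := hex Q; omega) Q q (by omega) h2
  refine Or.inr ⟨Q', q', ?_, ?_⟩
  · rw [dict i₀ F x B hBd Q', ← finrank_im_resB B]
    omega
  · have h5 := dict (k := k) i₀ F x B hBd (Sum.elim Q' fun _ : Unit => q')
    have h6 : (fun j : Fin (δ - 1) ⊕ Unit => upT K (frmT (Sum.elim Q' (fun _ => q') j))) =
        Sum.elim (fun j => upT K (frmT (Q' j))) fun _ : Unit => upT K (frmT q') := by
      funext j
      cases j <;> rfl
    have h7 : (fun (i : Fin (δ - 1) ⊕ Unit) j => algebraMap k K (Sum.elim Q' (fun _ => q') i j)) =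
        Sum.elim (fun i j => algebraMap k K (Q' i j))
          fun (_ : Unit) j => algebraMap k K (q' j) := by
      funext i
      cases i <;> rfl
    rw [h6, h7, ← finrank_im_resB B, h4, finrank_top, hN2] at h5
    apply Submodule.eq_of_le_of_finrank_eq
    · refine hle _ ?_
      intro G hG i _
      exact hvan G i ⟨_, _, hG⟩
    · rw [h5]
      omega

end Pool.Agent.H77.AH
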